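import Pool.Agent.H437R3.ScottRing

set_option autoImplicit false

/-!
Every finitely generated commutative ring, in particular every finitely generated integral domain,
has a `d-Σ₂` Scott sentence.

Proof. Let `A` be generated by the tuple `g`, let `r = 0` be a finite set of polynomial equations
which generates the ideal of relations of `g`. The sentence says that there is a tuple which
satisfies all the universal formulas true of `g`, and that every such tuple generates the structure.
It is true in `A`: if `x = p(g)` satisfies the universal formulas true of `g` then the existential
formula `∃ y, r(y) = 0 ∧ p(y) = x` is true of `x`, so it is true of `g`; this gives an endomorphism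
`g ↦ y` of `A` which maps `x` to `g`. It is surjective, hence injective as `A` is Noetherian, and
therefore `x` generates `A`.
-/

namespace Pool.Agent.Results.MP_93e0ce_lc.FGCommRing

open Pool.Agent.H437R3.Scott

/-- Every finitely generated commutative ring has a `d-Σ₂` Scott sentence. -/
theorem result (A : Type) [CommRing A] [FirstOrder.Ring.CompatibleRing A]
    (hfg : FirstOrder.Language.Structure.FG FirstOrder.Language.ring A) :
    HasDSigmaScottSentence FirstOrder.Language.ring 2 A :=
  commRing A hfg

end Pool.Agent.Results.MP_93e0ce_lc.FGCommRing
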